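import Mathlib

set_option autoImplicit false

/-!
# Zeros and critical points of real-rooted polynomials: the mean distance inequality
-/

namespace Pool.Agent.TH261.BV

open Finset

/-- The inequality behind the theorem, for a nonnegative centre. -/
theorem core_nonneg {ι : Type*} (s : Finset ι) (hs : s.Nonempty) (u : ι → ℝ)
    (hu : ∀ i ∈ s, 1 < |u i|) (h1 : -1 < ∑ i ∈ s, 1 / (1 - u i))
    (h2 : -1 < ∑ i ∈ s, 1 / (1 + u i)) (c : ℝ) (hc : 0 ≤ c) :
    (#s : ℝ) + 1 < |c| + ∑ i ∈ s, |u i - c| := by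
  classical
  set P := s.filter fun i => 1 < u i with hP
  set M := s.filter fun i => ¬ 1 < u i with hM
  have hPu : ∀ i ∈ P, 1 < u i := fun i hi => (mem_filter.1 hi).2
  have hMu : ∀ i ∈ M, u i < -1 := by
    intro i hi
    obtain ⟨his, hi1⟩ := mem_filter.1 hi
    rcases lt_abs.1 (hu i his) with h | h
    · exact absurd h hi1
    · linarith
  have split : ∀ f : ι → ℝ, ∑ i ∈ s, f i = ∑ i ∈ P, f i + ∑ i ∈ M, f i := fun f =>
    (sum_filter_add_sum_filter_not s _ f).symm
  have hcard : (#s : ℝ) = #P + #M := by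
    rw [hP, hM]; exact_mod_cast (card_filter_add_card_filter_not (s := s) (fun i => 1 < u i)).symm
  rw [abs_of_nonneg hc]
  have hMabs : ∑ i ∈ M, |u i - c| = ∑ i ∈ M, (c - u i) := by
    refine sum_congr rfl fun i hi => ?_
    rw [abs_of_neg (by linarith [hMu i hi])]; ring
  have hMge : (#M : ℝ) ≤ ∑ i ∈ M, (- u i) := by
    have : ∑ _i ∈ M, (1 : ℝ) ≤ ∑ i ∈ M, (- u i) := sum_le_sum fun i hi => by linarith [hMu i hi]
    simpa using this
  have hMsum : ∑ i ∈ M, (c - u i) = #M * c + ∑ i ∈ M, (- u i) := by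
    rw [← nsmul_eq_mul, ← sum_const, ← sum_add_distrib]
    exact sum_congr rfl fun i _ => by ring
  rw [split fun i => |u i - c|, hMabs, hMsum, hcard]
  rcases Nat.lt_or_ge #M #P with hpm | hpm
  · -- more positive than negative
    have hp0 : (0 : ℝ) < #P := by exact_mod_cast (by omega : 0 < #P)
    have hm0 : (0 : ℝ) ≤ #M := by positivity
    have hpm' : (#M : ℝ) + 1 ≤ #P := by exact_mod_cast hpm
    set X := ∑ i ∈ P, 1 / (u i - 1) with hX
    have hX1 : X < 1 + #M := by
      have e1 : ∑ i ∈ P, 1 / (1 - u i) = - X := by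
        rw [hX, ← sum_neg_distrib]
        refine sum_congr rfl fun i hi => ?_
        rw [show u i - 1 = -(1 - u i) by ring, one_div_neg_eq_neg_one_div, neg_neg]
      have e2 : ∑ i ∈ M, 1 / (1 - u i) ≤ #M := by
        have : ∑ i ∈ M, 1 / (1 - u i) ≤ ∑ _i ∈ M, (1 : ℝ) := by
          refine sum_le_sum fun i hi => ?_
          have := hMu i hi
          rw [div_le_one (by linarith)]; linarith
        simpa using this
      rw [split fun i => 1 / (1 - u i), e1] at h1
      linarith
    set t : ℝ := #P / (#M + 1) with ht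
    have ht0 : 0 < t := by positivity
    have e3 : (#P : ℝ) * (2 * t) - t ^ 2 * X ≤ ∑ i ∈ P, (u i - 1) := by
      have : ∑ i ∈ P, (2 * t - t ^ 2 * (1 / (u i - 1))) ≤ ∑ i ∈ P, (u i - 1) := by
        refine sum_le_sum fun i hi => ?_
        have h3 : 0 < u i - 1 := by linarith [hPu i hi]
        have h4 : 0 ≤ (u i - 1 - t) ^ 2 / (u i - 1) := by positivity
        have h5 : (u i - 1 - t) ^ 2 / (u i - 1) = (u i - 1) - 2 * t + t ^ 2 * (1 / (u i - 1)) := by
          field_simp
          ring
        linarith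
      rw [sum_sub_distrib, sum_const, nsmul_eq_mul, ← mul_sum] at this
      exact this
    have e4 : (#P : ℝ) ^ 2 / (#M + 1) < ∑ i ∈ P, (u i - 1) := by
      refine lt_of_lt_of_le ?_ e3
      have h6 : t ^ 2 * X < t ^ 2 * (1 + #M) := mul_lt_mul_of_pos_left hX1 (by positivity)
      have h7 : (#P : ℝ) * (2 * t) - t ^ 2 * (1 + #M) = (#P : ℝ) ^ 2 / (#M + 1) := by
        rw [ht]; field_simp; ring
      linarith
    have e5 : ∑ i ∈ P, (u i - 1) = ∑ i ∈ P, u i - #P := by
      rw [sum_sub_distrib]; simp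
    set l : ℝ := (#M + 1) / #P with hl
    have hl0 : 0 < l := by positivity
    have hl1 : l ≤ 1 := by rw [hl, div_le_one hp0]; exact hpm'
    have e6 : l * (∑ i ∈ P, u i) - (#M + 1) * c ≤ ∑ i ∈ P, |u i - c| := by
      have h8 : l * (∑ i ∈ P, u i) - (#M + 1) * c = ∑ i ∈ P, l * (u i - c) := by
        rw [← mul_sum, sum_sub_distrib, sum_const, nsmul_eq_mul, mul_sub]
        have : l * (#P * c) = (#M + 1) * c := by rw [hl]; field_simp
        rw [this]
      rw [h8]
      refine sum_le_sum fun i _ => ?_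
      calc l * (u i - c) ≤ l * |u i - c| := mul_le_mul_of_nonneg_left (le_abs_self _) hl0.le
        _ ≤ 1 * |u i - c| := mul_le_mul_of_nonneg_right hl1 (abs_nonneg _)
        _ = _ := one_mul _
    have e7 : l * (#P + (#P : ℝ) ^ 2 / (#M + 1)) = #M + 1 + #P := by
      rw [hl]; field_simp
    have e8 : l * (#P + (#P : ℝ) ^ 2 / (#M + 1)) < l * ∑ i ∈ P, u i :=
      mul_lt_mul_of_pos_left (by linarith) hl0
    linarith
  · -- at least as many negative
    have e1 : ∑ i ∈ P, (u i - c) ≤ ∑ i ∈ P, |u i - c| := sum_le_sum fun i _ => le_abs_self _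
    have e2 : ∑ i ∈ P, (u i - c) = ∑ i ∈ P, u i - #P * c := by
      rw [sum_sub_distrib, sum_const, nsmul_eq_mul]
    have e3 : (#P : ℝ) * c ≤ #M * c := mul_le_mul_of_nonneg_right (by exact_mod_cast hpm) hc
    have eabs : ∑ i ∈ s, |u i| = ∑ i ∈ P, u i + ∑ i ∈ M, (- u i) := by
      rw [split]
      congr 1
      · exact sum_congr rfl fun i hi => abs_of_pos (by linarith [hPu i hi])
      · exact sum_congr rfl fun i hi => abs_of_neg (by linarith [hMu i hi])
    suffices h : (#s : ℝ) + 1 < ∑ i ∈ s, |u i| by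
      rw [eabs, hcard] at h
      linarith
    by_contra hcon
    push Not at hcon
    set v : ι → ℝ := fun i => |u i| - 1 with hv
    have hv0 : ∀ i ∈ s, 0 < v i := fun i hi => by have := hu i hi; simp only [hv]; linarith
    have hvs : ∑ i ∈ s, v i ≤ 1 := by
      simp only [hv]; rw [sum_sub_distrib]; simp; linarith
    have hv1 : ∀ i ∈ s, v i ≤ 1 := fun i hi =>
      (single_le_sum (fun j hj => (hv0 j hj).le) hi).trans hvs
    rcases Nat.lt_or_ge 1 #s with hN | hN
    · have h3 : ∑ i ∈ s, 1 / (u i ^ 2 - 1) < 1 := by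
        have h4 : ∑ i ∈ s, 1 / (1 - u i) + ∑ i ∈ s, 1 / (1 + u i) =
            - 2 * ∑ i ∈ s, 1 / (u i ^ 2 - 1) := by
          rw [← sum_add_distrib, mul_sum]
          refine sum_congr rfl fun i hi => ?_
          have h5 := hu i hi
          have h6 : 1 < u i ^ 2 := by rw [← sq_abs]; nlinarith
          have h7 : 1 - u i ≠ 0 := by intro h; nlinarith
          have h8 : 1 + u i ≠ 0 := by intro h; nlinarith
          have h9 : u i ^ 2 - 1 ≠ 0 := by intro h; linarith
          field_simp
          ring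
        linarith
      have h5 : ∑ i ∈ s, 1 / (3 * v i) ≤ ∑ i ∈ s, 1 / (u i ^ 2 - 1) := by
        refine sum_le_sum fun i hi => ?_
        have h6 := hv0 i hi
        have h7 := hv1 i hi
        have h8 : u i ^ 2 - 1 = v i * (v i + 2) := by
          simp only [hv]; rw [← sq_abs]; ring
        rw [h8]
        apply one_div_le_one_div_of_le (by positivity)
        nlinarith
      have h6 : ∑ i ∈ s, (4 - 4 * v i) / 3 ≤ ∑ i ∈ s, 1 / (3 * v i) := by
        refine sum_le_sum fun i hi => ?_
        have h7 := hv0 i hi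
        have h8 : 0 ≤ (1 - 2 * v i) ^ 2 / (3 * v i) := by positivity
        have h9 : (1 - 2 * v i) ^ 2 / (3 * v i) = 1 / (3 * v i) - (4 - 4 * v i) / 3 := by
          field_simp
          ring
        linarith
      have h7 : ∑ i ∈ s, (4 - 4 * v i) / 3 = (4 * #s - 4 * ∑ i ∈ s, v i) / 3 := by
        rw [← sum_div, sum_sub_distrib, ← mul_sum]
        simp
        ring
      have h8 : (2 : ℝ) ≤ #s := by exact_mod_cast hN
      linarith
    · -- a single other zero, negative
      have hs1 : #s = 1 := le_antisymm hN hs.card_pos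
      obtain ⟨i, hi⟩ := card_eq_one.1 hs1
      have hMi : i ∈ M := by
        by_contra hiM
        have : i ∈ P := by
          rw [hP, mem_filter]
          refine ⟨by rw [hi]; exact mem_singleton_self i, ?_⟩
          by_contra hcc
          exact hiM (by rw [hM, mem_filter]; exact ⟨by rw [hi]; exact mem_singleton_self i, hcc⟩)
        have h3 : 1 ≤ #P := card_pos.2 ⟨i, this⟩
        have h4 : 1 ≤ #M := h3.trans hpm
        have h5 : #P + #M = 1 := by
          rw [← hs1]; exact_mod_cast hcard.symm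
        omega
      have h3 := hMu i hMi
      rw [hi, sum_singleton] at h2 hcon
      rw [card_singleton, abs_of_neg (by linarith)] at hcon
      have h4 : 1 + u i < 0 := by linarith
      rw [lt_div_iff_of_neg h4] at h2
      push_cast at hcon
      linarith

/-- The inequality behind the theorem. -/
theorem core {ι : Type*} (s : Finset ι) (hs : s.Nonempty) (u : ι → ℝ)
    (hu : ∀ i ∈ s, 1 < |u i|) (h1 : -1 < ∑ i ∈ s, 1 / (1 - u i))
    (h2 : -1 < ∑ i ∈ s, 1 / (1 + u i)) (c : ℝ) :
    (#s : ℝ) + 1 < |c| + ∑ i ∈ s, |u i - c| := by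
  rcases le_total 0 c with hc | hc
  · exact core_nonneg s hs u hu h1 h2 c hc
  · have h := core_nonneg s hs (fun i => - u i) (fun i hi => by rw [abs_neg]; exact hu i hi)
      (by simpa [sub_neg_eq_add] using h2) (by simpa [sub_eq_add_neg] using h1) (-c) (by linarith)
    rw [abs_neg] at h
    have e : ∑ i ∈ s, |(- u i) - (-c)| = ∑ i ∈ s, |u i - c| := by
      refine sum_congr rfl fun i _ => ?_
      rw [← abs_neg]; congr 1; ring
    rw [e] at h
    exact h

end Pool.Agent.TH261.BV
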