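import Pool.Agent.TH261.BV.Crit

set_option autoImplicit false

/-!
# Collinear zeros
-/

namespace Pool.Agent.TH261.BV

open Finset Polynomial

variable {n : ℕ}

/-- the polynomial `∏ (X - z_j)` -/
noncomputable def Q (z : Fin n → ℂ) : Polynomial ℂ := ∏ j : Fin n, (X - C (z j))

theorem eval_derivative (z : Fin n → ℂ) (w : ℂ) :
    (derivative (Q z)).eval w = ∑ i, ∏ j ∈ univ.erase i, (w - z j) := by
  unfold Q
  rw [derivative_prod_finset, eval_finset_sum]
  refine sum_congr rfl fun i _ => ?_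
  rw [eval_mul, eval_prod]
  simp

theorem isRoot_of_D (α β : ℂ) (x : Fin n → ℝ) (z : Fin n → ℂ)
    (hz : ∀ j, z j = α + β * (x j : ℂ)) {w : ℝ} (hw : D x w = 0) :
    (derivative (Q z)).IsRoot (α + β * (w : ℂ)) := by
  rw [IsRoot.def, eval_derivative]
  have e : ∀ i : Fin n, ∏ j ∈ univ.erase i, (α + β * (w : ℂ) - z j) =
      β ^ (n - 1) * ((∏ j ∈ univ.erase i, (w - x j) : ℝ) : ℂ) := by
    intro i
    have e1 : ∀ j ∈ univ.erase i, α + β * (w : ℂ) - z j = β * ((w - x j : ℝ) : ℂ) := by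
      intro j _
      rw [hz j]; push_cast; ring
    rw [prod_congr rfl e1, prod_mul_distrib, prod_const, card_erase_of_mem (mem_univ i),
      card_univ, Fintype.card_fin]
    push_cast
    rfl
  rw [sum_congr rfl fun i _ => e i, ← mul_sum, ← Complex.ofReal_sum]
  have : ∑ i, ∏ j ∈ univ.erase i, (w - x j) = D x w := rfl
  rw [this, hw]
  simp

theorem exists_param {z : Fin n → ℂ} (h : Collinear ℝ (Set.range z)) :
    ∃ (α β : ℂ) (x : Fin n → ℝ), ∀ j, z j = α + β * (x j : ℂ) := by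
  obtain ⟨p₀, v, hv⟩ := (collinear_iff_exists_forall_eq_smul_vadd _).1 h
  choose x hx using fun j => hv (z j) ⟨j, rfl⟩
  refine ⟨p₀, v, x, fun j => ?_⟩
  rw [hx j, vadd_eq_add, Complex.real_smul]
  ring

/-- The mean of the distances is at most the `p`-mean. -/
theorem mean_le_pmean (hn : 0 < n) (y : Fin n → ℝ) (hy : ∀ j, 0 ≤ y j) {p : ℝ} (hp : 1 ≤ p) :
    (1 / (n : ℝ)) * ∑ j, y j ≤ ((1 / (n : ℝ)) * ∑ j, y j ^ p) ^ (1 / p) := by
  have hn0 : (0 : ℝ) < n := by exact_mod_cast hn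
  have h := Real.arith_mean_le_rpow_mean univ (fun _ : Fin n => 1 / (n : ℝ)) y
    (fun _ _ => by positivity) (by
      rw [sum_const, card_univ, Fintype.card_fin, nsmul_eq_mul]; field_simp)
    (fun j _ => hy j) hp
  rw [← mul_sum, ← mul_sum] at h
  exact h

/-- The mean distance inequality for collinear zeros. -/
theorem exists_crit_cpx (hn : 2 ≤ n) (α β : ℂ) (x : Fin n → ℝ) (z : Fin n → ℂ)
    (hz : ∀ j, z j = α + β * (x j : ℂ)) (c : ℂ) (k : Fin n) :
    ∃ w : ℝ, D x w = 0 ∧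
      ‖z k - (α + β * (w : ℂ))‖ ≤ (1 / (n : ℝ)) * ∑ j, ‖z j - c‖ := by
  obtain ⟨w, hw, hle⟩ := exists_crit hn x k ((c - α) / β).re
  refine ⟨w, hw, ?_⟩
  have e1 : z k - (α + β * (w : ℂ)) = β * ((x k - w : ℝ) : ℂ) := by
    rw [hz k]; push_cast; ring
  rw [e1, norm_mul, Complex.norm_real, Real.norm_eq_abs]
  refine (mul_le_mul_of_nonneg_left hle (norm_nonneg β)).trans ?_
  rw [mul_left_comm]
  refine mul_le_mul_of_nonneg_left ?_ (by positivity)
  rw [mul_sum]
  refine sum_le_sum fun j _ => ?_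
  by_cases hβ : β = 0
  · rw [hβ, norm_zero, zero_mul]; exact norm_nonneg _
  · have e2 : z j - c = β * ((x j : ℂ) - (c - α) / β) := by
      rw [hz j]; field_simp; ring
    rw [e2, norm_mul]
    refine mul_le_mul_of_nonneg_left ?_ (norm_nonneg β)
    have e3 : x j - ((c - α) / β).re = ((x j : ℂ) - (c - α) / β).re := by
      rw [Complex.sub_re, Complex.ofReal_re]
    rw [e3]
    exact Complex.abs_re_le_norm _

end Pool.Agent.TH261.BV
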