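import Pool.Agent.TH261.BV.Core

set_option autoImplicit false

/-!
# Critical points of real-rooted polynomials
-/

namespace Pool.Agent.TH261.BV

open Finset

variable {n : ℕ}

/-- the value of `∏ (X - x_j)` -/
noncomputable def F (x : Fin n → ℝ) (w : ℝ) : ℝ := ∏ j, (w - x j)

/-- the value of the derivative of `∏ (X - x_j)` -/
noncomputable def D (x : Fin n → ℝ) (w : ℝ) : ℝ := ∑ i, ∏ j ∈ univ.erase i, (w - x j)

theorem hasDerivAt_F (x : Fin n → ℝ) (w : ℝ) : HasDerivAt (F x) (D x w) w := by
  have h := HasDerivAt.fun_finsetProd (u := (univ : Finset (Fin n)))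
    (f := fun j (t : ℝ) => t - x j) (f' := fun _ => 1) (x := w)
    (fun j _ => (hasDerivAt_id w).sub_const (x j))
  have e : D x w = ∑ i ∈ (univ : Finset (Fin n)), (∏ j ∈ univ.erase i, (w - x j)) • (1 : ℝ) := by
    unfold D; simp
  rw [e]
  exact h

theorem continuous_D (x : Fin n → ℝ) : Continuous (D x) := by
  unfold D
  exact continuous_finsetSum _ fun i _ => continuous_finsetProd _ fun j _ => by fun_prop

theorem D_eq (x : Fin n → ℝ) (k : Fin n) (w : ℝ) (hw : ∀ j, j ≠ k → w ≠ x j) :
    D x w = (∏ j ∈ univ.erase k, (w - x j)) *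
      (1 + (w - x k) * ∑ j ∈ univ.erase k, 1 / (w - x j)) := by
  unfold D
  rw [← add_sum_erase _ _ (mem_univ k), mul_add, mul_one, mul_sum, mul_sum]
  congr 1
  refine sum_congr rfl fun i hi => ?_
  have hik : i ≠ k := (mem_erase.1 hi).1
  have h0 : w - x i ≠ 0 := sub_ne_zero.2 (hw i hik)
  have e1 : (w - x i) * ∏ j ∈ univ.erase i, (w - x j) = ∏ j, (w - x j) :=
    mul_prod_erase univ (fun j => w - x j) (mem_univ i)
  have e2 : (w - x k) * ∏ j ∈ univ.erase k, (w - x j) = ∏ j, (w - x j) :=
    mul_prod_erase univ (fun j => w - x j) (mem_univ k)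
  rw [show (∏ j ∈ univ.erase k, (w - x j)) * ((w - x k) * (1 / (w - x i))) =
    ((w - x k) * ∏ j ∈ univ.erase k, (w - x j)) / (w - x i) by ring, e2, ← e1]
  field_simp

/-- a multiple zero is a critical point -/
theorem D_eq_zero_of_eq (x : Fin n → ℝ) {j k : Fin n} (hjk : j ≠ k) (h : x j = x k) :
    D x (x k) = 0 := by
  unfold D
  refine sum_eq_zero fun i _ => ?_
  by_cases hik : i = k
  · subst hik
    exact prod_eq_zero (mem_erase.2 ⟨hjk, mem_univ j⟩) (by rw [h, sub_self])
  · exact prod_eq_zero (mem_erase.2 ⟨fun h => hik h.symm, mem_univ k⟩) (sub_self _)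

/-- **Mean distance inequality**: a real-rooted polynomial of degree `n ≥ 2` has, for each zero
`x k` and each real `c`, a critical point whose distance to `x k` is at most the mean distance of
the zeros to `c`. -/
theorem exists_crit (hn : 2 ≤ n) (x : Fin n → ℝ) (k : Fin n) (c : ℝ) :
    ∃ w : ℝ, D x w = 0 ∧ |x k - w| ≤ (1 / (n : ℝ)) * ∑ j, |x j - c| := by
  have hn0 : (0 : ℝ) < n := by exact_mod_cast (by omega : 0 < n)
  by_cases hmul : ∃ j, j ≠ k ∧ x j = x k
  · obtain ⟨j, hjk, h⟩ := hmul
    refine ⟨x k, D_eq_zero_of_eq x hjk h, ?_⟩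
    rw [sub_self, abs_zero]
    positivity
  push Not at hmul
  set d := (1 / (n : ℝ)) * ∑ j, |x j - c| with hd
  have hne : (univ.erase k : Finset (Fin n)).Nonempty := by
    rw [← card_pos, card_erase_of_mem (mem_univ k), card_univ, Fintype.card_fin]; omega
  have hd0 : 0 < d := by
    obtain ⟨j, hj⟩ := hne
    have hjk : j ≠ k := (mem_erase.1 hj).1
    have h1 : 0 < ∑ j, |x j - c| := by
      refine lt_of_le_of_ne (sum_nonneg fun _ _ => abs_nonneg _) fun h => ?_
      have h2 := (sum_eq_zero_iff_of_nonneg fun _ _ => abs_nonneg _).1 h.symm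
      have h3 : x j - c = 0 := abs_eq_zero.1 (h2 j (mem_univ j))
      have h4 : x k - c = 0 := abs_eq_zero.1 (h2 k (mem_univ k))
      exact hmul j hjk (by linarith)
    positivity
  by_contra hcon
  push Not at hcon
  have hD : ∀ w, |x k - w| ≤ d → D x w ≠ 0 := fun w hw h0 => absurd (hcon w h0) (not_lt.2 hw)
  -- the other zeros are at distance more than `d`
  have hfar : ∀ j, j ≠ k → d < |x j - x k| := by
    intro j hjk
    by_contra hle
    push Not at hle
    have hroot : ∀ i, F x (x i) = 0 := fun i => prod_eq_zero (mem_univ i) (sub_self _)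
    have hrolle : ∀ a b : ℝ, a < b → F x a = F x b → ∃ w ∈ Set.Ioo a b, D x w = 0 :=
      fun a b hab hf => exists_hasDerivAt_eq_zero hab
        (fun t _ => (hasDerivAt_F x t).continuousAt.continuousWithinAt) hf
        fun t _ => hasDerivAt_F x t
    rcases lt_or_gt_of_ne (hmul j hjk) with hlt | hgt
    · obtain ⟨w, hw, h0⟩ := hrolle _ _ hlt (by rw [hroot, hroot])
      refine hD w ?_ h0
      rw [abs_of_pos (by linarith [hw.2])]
      rw [abs_of_neg (by linarith)] at hle
      linarith [hw.1]
    · obtain ⟨w, hw, h0⟩ := hrolle _ _ hgt (by rw [hroot, hroot])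
      refine hD w ?_ h0
      rw [abs_of_neg (by linarith [hw.1])]
      rw [abs_of_pos (by linarith)] at hle
      linarith [hw.2]
  -- the sign of the derivative
  have hsign : ∀ w, |x k - w| ≤ d → 0 < D x w * D x (x k) := by
    intro w hw
    by_contra hle
    push Not at hle
    have hk : D x (x k) ≠ 0 := hD _ (by rw [sub_self, abs_zero]; exact hd0.le)
    have hmem : (0 : ℝ) ∈ Set.uIcc (D x w) (D x (x k)) := by
      rw [Set.mem_uIcc]
      rcases lt_or_gt_of_ne hk with h | h
      · right; exact ⟨h.le, by nlinarith⟩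
      · left; exact ⟨by nlinarith, h.le⟩
    obtain ⟨y, hy, hy0⟩ := intermediate_value_uIcc (continuous_D x).continuousOn hmem
    refine hD y ?_ hy0
    refine le_trans ?_ hw
    rw [Set.mem_uIcc] at hy
    rcases hy with ⟨h3, h4⟩ | ⟨h3, h4⟩
    · rw [abs_of_nonneg (by linarith), abs_of_nonneg (by linarith)]; linarith
    · rw [abs_of_nonpos (by linarith), abs_of_nonpos (by linarith)]; linarith
  have key : ∀ w, |x k - w| ≤ d → 0 < 1 + (w - x k) * ∑ j ∈ univ.erase k, 1 / (w - x j) := by
    intro w hw
    have hw' : ∀ j, j ≠ k → w ≠ x j := by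
      rintro j hjk rfl
      rw [abs_sub_comm] at hw
      exact absurd (hfar j hjk) (not_lt.2 hw)
    have h3 := hsign w hw
    rw [D_eq x k w hw', D_eq x k (x k) (fun j hj h => hmul j hj h.symm), sub_self, zero_mul,
      add_zero, mul_one] at h3
    have h4 : 0 < (∏ j ∈ univ.erase k, (w - x j)) * ∏ j ∈ univ.erase k, (x k - x j) := by
      rw [← prod_mul_distrib]
      refine prod_pos fun j hj => ?_
      have hjk : j ≠ k := (mem_erase.1 hj).1
      have h5 := hfar j hjk
      obtain ⟨h6, h7⟩ := abs_le.1 hw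
      rcases lt_abs.1 h5 with h8 | h8
      · exact mul_pos_of_neg_of_neg (by linarith) (by linarith)
      · exact mul_pos (by linarith) (by linarith)
    rw [mul_right_comm] at h3
    exact (pos_iff_pos_of_mul_pos h3).1 h4
  have hp := key (x k + d) (by rw [show x k - (x k + d) = -d by ring, abs_neg, abs_of_pos hd0])
  have hm := key (x k - d) (by rw [show x k - (x k - d) = d by ring, abs_of_pos hd0])
  have h := core (univ.erase k) hne (fun j => (x j - x k) / d) (fun j hj => by
      rw [abs_div, abs_of_pos hd0, lt_div_iff₀ hd0, one_mul]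
      exact hfar j (mem_erase.1 hj).1) (by
      have e : ∑ j ∈ univ.erase k, 1 / (1 - (x j - x k) / d) =
          (x k + d - x k) * ∑ j ∈ univ.erase k, 1 / (x k + d - x j) := by
        rw [mul_sum]
        refine sum_congr rfl fun j hj => ?_
        have h5 := hfar j (mem_erase.1 hj).1
        have h6 : x k + d - x j ≠ 0 := by
          intro h6
          rw [show x j - x k = d by linarith, abs_of_pos hd0] at h5
          exact lt_irrefl _ h5
        have h7 : 1 - (x j - x k) / d = (x k + d - x j) / d := by field_simp; ring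
        rw [h7, one_div_div]
        rw [show x k + d - x k = d by ring]
        ring
      rw [e]; linarith) (by
      have e : ∑ j ∈ univ.erase k, 1 / (1 + (x j - x k) / d) =
          (x k - d - x k) * ∑ j ∈ univ.erase k, 1 / (x k - d - x j) := by
        rw [mul_sum]
        refine sum_congr rfl fun j hj => ?_
        have h5 := hfar j (mem_erase.1 hj).1
        have h6 : x k - d - x j ≠ 0 := by
          intro h6
          rw [show x j - x k = -d by linarith, abs_neg, abs_of_pos hd0] at h5
          exact lt_irrefl _ h5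
        have h7 : 1 + (x j - x k) / d = -(x k - d - x j) / d := by field_simp; ring
        rw [h7, one_div_div]
        rw [show x k - d - x k = -d by ring]
        rw [div_neg, mul_one_div, neg_div]
      rw [e]; linarith) ((c - x k) / d)
  have hcard : (#(univ.erase k : Finset (Fin n)) : ℝ) + 1 = n := by
    rw [card_erase_of_mem (mem_univ k), card_univ, Fintype.card_fin]
    have : ((n - 1 : ℕ) : ℝ) = n - 1 := by
      rw [Nat.cast_sub (by omega)]; simp
    rw [this]; ring
  rw [hcard] at h
  have e9 : |(c - x k) / d| + ∑ j ∈ univ.erase k, |(x j - x k) / d - (c - x k) / d| =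
      (∑ j, |x j - c|) / d := by
    rw [← add_sum_erase _ _ (mem_univ k), add_div, sum_div]
    congr 1
    · rw [abs_div, abs_of_pos hd0, abs_sub_comm]
    · refine sum_congr rfl fun j _ => ?_
      rw [← sub_div, abs_div, abs_of_pos hd0]
      congr 2
      ring
  rw [e9, lt_div_iff₀ hd0] at h
  have e10 : (n : ℝ) * d = ∑ j, |x j - c| := by rw [hd]; field_simp
  rw [e10] at h
  exact lt_irrefl _ h

end Pool.Agent.TH261.BV
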