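import Pool.Agent.TH261.BV.Cpx

set_option autoImplicit false

/-!
# Collinear zeros: strict inequality
-/

namespace Pool.Agent.TH261.BV

open Finset Polynomial

variable {n : ℕ}

/-- The mean is less than the `p`-mean if the numbers are not all equal. -/
theorem mean_lt_pmean (y : Fin n → ℝ) (hy : ∀ j, 0 ≤ y j) {p : ℝ} (hp : 1 < p)
    {i j : Fin n} (hij : y i ≠ y j) :
    (1 / (n : ℝ)) * ∑ j, y j < ((1 / (n : ℝ)) * ∑ j, y j ^ p) ^ (1 / p) := by
  have hn : 0 < n := i.pos
  have hn0 : (0 : ℝ) < n := by exact_mod_cast hn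
  have hp0 : 0 < p := by linarith
  have h := (strictConvexOn_rpow hp).map_sum_lt (t := (univ : Finset (Fin n)))
    (w := fun _ => 1 / (n : ℝ)) (p := y) (fun _ _ => by positivity) (by
      rw [sum_const, card_univ, Fintype.card_fin, nsmul_eq_mul]; field_simp)
    (fun k _ => hy k) ⟨i, mem_univ i, j, mem_univ j, hij⟩
  simp only [smul_eq_mul] at h
  rw [← mul_sum, ← mul_sum] at h
  have h0 : 0 ≤ (1 / (n : ℝ)) * ∑ j, y j :=
    mul_nonneg (by positivity) (sum_nonneg fun k _ => hy k)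
  have h1 := Real.rpow_lt_rpow (by positivity) h (show 0 < 1 / p by positivity)
  rwa [← Real.rpow_mul h0, mul_one_div_cancel hp0.ne', Real.rpow_one] at h1

/-- Strict form for collinear zeros. -/
theorem exists_crit_lt (hn : 3 ≤ n) (α β : ℂ) (x : Fin n → ℝ) (z : Fin n → ℂ)
    (hz : ∀ j, z j = α + β * (x j : ℂ)) {p : ℝ} (hp : 1 < p) (hne : ∃ i j, z i ≠ z j)
    (c : ℂ) (k : Fin n) :
    ∃ w : ℝ, D x w = 0 ∧ ‖z k - (α + β * (w : ℂ))‖ <
      ((1 / (n : ℝ)) * ∑ j, ‖z j - c‖ ^ p) ^ (1 / p) := by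
  have hn0 : (0 : ℝ) < n := by exact_mod_cast (by omega : 0 < n)
  have hp0 : 0 < p := by linarith
  by_cases hall : ∃ i j, ‖z i - c‖ ≠ ‖z j - c‖
  · obtain ⟨i, j, hij⟩ := hall
    obtain ⟨w, hw, hle⟩ := exists_crit_cpx (by omega) α β x z hz c k
    exact ⟨w, hw, hle.trans_lt (mean_lt_pmean (fun j => ‖z j - c‖) (fun _ => norm_nonneg _) hp hij)⟩
  push Not at hall
  set r := ‖z k - c‖ with hr
  have hM : ((1 / (n : ℝ)) * ∑ j, ‖z j - c‖ ^ p) ^ (1 / p) = r := by
    rw [sum_congr rfl fun j _ => by rw [hall j k], sum_const, card_univ, Fintype.card_fin,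
      nsmul_eq_mul, ← mul_assoc, one_div_mul_cancel hn0.ne', one_mul,
      ← Real.rpow_mul (norm_nonneg _), mul_one_div_cancel hp0.ne', Real.rpow_one]
  rw [hM]
  obtain ⟨i₀, j₀, hij⟩ := hne
  have hr0 : 0 < r := by
    rcases (norm_nonneg (z k - c)).eq_or_lt with h | h
    · exfalso
      apply hij
      have h1 := hall i₀ k
      have h2 := hall j₀ k
      rw [← h, norm_eq_zero, sub_eq_zero] at h1 h2
      rw [h1, h2]
    · exact h
  have hβ : β ≠ 0 := by
    rintro rfl
    apply hij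
    rw [hz, hz]; simp
  by_cases hmul : ∃ j, j ≠ k ∧ x j = x k
  · obtain ⟨j, hjk, h⟩ := hmul
    refine ⟨x k, D_eq_zero_of_eq x hjk h, ?_⟩
    rw [hz k, sub_self, norm_zero]
    exact hr0
  push Not at hmul
  set γ := (c - α) / β with hγ
  set y := 2 * γ.re - x k with hy
  have hxy : ∀ j, j ≠ k → x j = y := by
    intro j hjk
    have e1 : ∀ i, ‖z i - c‖ = ‖β‖ * ‖(x i : ℂ) - γ‖ := by
      intro i
      rw [← norm_mul]
      congr 1
      rw [hz i, hγ]; field_simp; ring
    have h1 := hall j k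
    rw [e1, e1] at h1
    have h2 : ‖(x j : ℂ) - γ‖ = ‖(x k : ℂ) - γ‖ :=
      mul_left_cancel₀ (norm_ne_zero_iff.2 hβ) h1
    have h3 : ‖(x j : ℂ) - γ‖ ^ 2 = ‖(x k : ℂ) - γ‖ ^ 2 := by rw [h2]
    rw [← Complex.normSq_eq_norm_sq, ← Complex.normSq_eq_norm_sq, Complex.normSq_apply,
      Complex.normSq_apply] at h3
    simp only [Complex.sub_re, Complex.sub_im, Complex.ofReal_re, Complex.ofReal_im] at h3
    have h4 : (x j - x k) * (x j + x k - 2 * γ.re) = 0 := by linarith
    rcases mul_eq_zero.1 h4 with h5 | h5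
    · exact absurd (sub_eq_zero.1 h5) (hmul j hjk)
    · rw [hy]; linarith
  have hne' : (univ.erase k : Finset (Fin n)).Nonempty := by
    rw [← card_pos, card_erase_of_mem (mem_univ k), card_univ, Fintype.card_fin]; omega
  obtain ⟨j₁, hj₁⟩ := hne'
  have hj₁k : j₁ ≠ k := (mem_erase.1 hj₁).1
  have hyk : y ≠ x k := by rw [← hxy j₁ hj₁k]; exact hmul j₁ hj₁k
  have hn3 : (3 : ℝ) ≤ n := by exact_mod_cast hn
  refine ⟨x k + (y - x k) / n, ?_, ?_⟩
  · have hw : ∀ j, j ≠ k → x k + (y - x k) / n ≠ x j := by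
      intro j hjk h
      rw [hxy j hjk] at h
      have h1 : (y - x k) / n = y - x k := by linarith
      rw [div_eq_iff hn0.ne'] at h1
      have h2 : (y - x k) * (n - 1) = 0 := by linarith
      rcases mul_eq_zero.1 h2 with h3 | h3
      · exact hyk (sub_eq_zero.1 h3)
      · linarith
    rw [D_eq x k _ hw]
    have e2 : ∑ j ∈ univ.erase k, 1 / (x k + (y - x k) / n - x j) =
        (n - 1) * (1 / (x k + (y - x k) / n - y)) := by
      rw [sum_congr rfl fun j hj => by rw [hxy j (mem_erase.1 hj).1], sum_const,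
        card_erase_of_mem (mem_univ k), card_univ, Fintype.card_fin, nsmul_eq_mul,
        Nat.cast_sub (by omega)]
      simp
    rw [e2]
    have e3 : x k + (y - x k) / n - y = -((n - 1) * (y - x k)) / n := by field_simp; ring
    have h5 : y - x k ≠ 0 := sub_ne_zero.2 hyk
    have h6 : (n : ℝ) - 1 ≠ 0 := by linarith
    have e4 : (x k + (y - x k) / n - x k) * ((n - 1) * (1 / (x k + (y - x k) / n - y))) = -1 := by
      rw [e3]; field_simp; ring
    rw [e4]; ring
  · have e5 : z k - (α + β * ((x k + (y - x k) / n : ℝ) : ℂ)) = (z k - z j₁) / n := by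
      rw [hz k, hz j₁, hxy j₁ hj₁k]; push_cast; ring
    rw [e5, norm_div, Complex.norm_natCast, div_lt_iff₀ hn0]
    have h7 : ‖z k - z j₁‖ ≤ r + r := by
      have e6 : z k - z j₁ = (z k - c) - (z j₁ - c) := by ring
      rw [e6]
      refine (norm_sub_le _ _).trans ?_
      rw [hall j₁ k]
    nlinarith

end Pool.Agent.TH261.BV
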